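import Mathlib

/-! The spectral gap of a symmetric walk on a finite set gives mixing of the lazy walk. -/

set_option autoImplicit false

namespace Pool.Agent.X233.Mix
open Finset

variable {Y : Type*} [Fintype Y]

/-- a real bilinear form on functions -/
noncomputable def ip (f g : Y → ℝ) : ℝ := ∑ y, f y * g y

lemma ip_comm (f g : Y → ℝ) : ip f g = ip g f := by
  unfold ip; exact Finset.sum_congr rfl fun y _ => mul_comm _ _

lemma ip_self_nonneg (f : Y → ℝ) : 0 ≤ ip f f :=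
  Finset.sum_nonneg fun y _ => mul_self_nonneg _

section
variable (T : (Y → ℝ) →ₗ[ℝ] (Y → ℝ))

lemma ip_add_left (f g h : Y → ℝ) : ip (f + g) h = ip f h + ip g h := by
  simp [ip, add_mul, Finset.sum_add_distrib]

lemma ip_smul_left (c : ℝ) (f h : Y → ℝ) : ip (c • f) h = c * ip f h := by
  simp [ip, Finset.mul_sum, mul_assoc]

lemma ip_add_right (f g h : Y → ℝ) : ip h (f + g) = ip h f + ip h g := by
  rw [ip_comm, ip_add_left, ip_comm f, ip_comm g]

lemma ip_smul_right (c : ℝ) (f h : Y → ℝ) : ip h (c • f) = c * ip h f := by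
  rw [ip_comm, ip_smul_left, ip_comm f]

/-- `‖T f‖ ≤ ρ ‖f‖` on mean zero functions for a symmetric `T` with `0 ≤ T ≤ ρ` -/
lemma contract {ρ : ℝ} (hρ : 0 ≤ ρ) (hsym : ∀ f g, ip (T f) g = ip f (T g))
    (hpos : ∀ f, 0 ≤ ip f (T f)) (hmean : ∀ f, ∑ y, f y = 0 → ∑ y, T f y = 0)
    (hle : ∀ f, ∑ y, f y = 0 → ip f (T f) ≤ ρ * ip f f) (f : Y → ℝ) (hf : ∑ y, f y = 0) :
    ip (T f) (T f) ≤ ρ ^ 2 * ip f f := by
  -- Cauchy-Schwarz for the form `⟨f, T g⟩`
  have cs : ip (T f) (T f) ^ 2 ≤ ip f (T f) * ip (T f) (T (T f)) := by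
    have key : ∀ s : ℝ, 0 ≤ ip (T f) (T (T f)) * (s * s) + (2 * ip (T f) (T f)) * s + ip f (T f) := by
      intro s
      have h := hpos (f + s • T f)
      rw [map_add, map_smul, ip_add_left, ip_add_right, ip_add_right, ip_smul_left, ip_smul_left,
        ip_smul_right, ip_smul_right] at h
      have e : ip f (T (T f)) = ip (T f) (T f) := (hsym f (T f)).symm
      rw [e] at h
      nlinarith
    have := discrim_le_zero key
    unfold discrim at this
    nlinarith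
  have h1 := hle f hf
  have h2 := hle (T f) (hmean f hf)
  by_cases h0 : ip (T f) (T f) = 0
  · rw [h0]
    exact mul_nonneg (sq_nonneg _) (ip_self_nonneg f)
  have h3 : 0 < ip (T f) (T f) := lt_of_le_of_ne (ip_self_nonneg _) (Ne.symm h0)
  have h4 : ip (T f) (T f) ^ 2 ≤ (ρ * ip f f) * (ρ * ip (T f) (T f)) :=
    cs.trans (mul_le_mul h1 h2 (hpos _) (mul_nonneg hρ (ip_self_nonneg f)))
  have h5 : ip (T f) (T f) * ip (T f) (T f) ≤ (ρ ^ 2 * ip f f) * ip (T f) (T f) := by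
    nlinarith
  exact le_of_mul_le_mul_right h5 h3

lemma contract_iter {ρ : ℝ} (hρ : 0 ≤ ρ) (hsym : ∀ f g, ip (T f) g = ip f (T g))
    (hpos : ∀ f, 0 ≤ ip f (T f)) (hmean : ∀ f, ∑ y, f y = 0 → ∑ y, T f y = 0)
    (hle : ∀ f, ∑ y, f y = 0 → ip f (T f) ≤ ρ * ip f f) (t : ℕ) (f : Y → ℝ)
    (hf : ∑ y, f y = 0) :
    ∑ y, (T^[t] f) y = 0 ∧ ip (T^[t] f) (T^[t] f) ≤ (ρ ^ t) ^ 2 * ip f f := by
  induction t with
  | zero => exact ⟨hf, by simp⟩
  | succ t ih =>
    rw [Function.iterate_succ_apply']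
    refine ⟨hmean _ ih.1, (contract T hρ hsym hpos hmean hle _ ih.1).trans ?_⟩
    calc ρ ^ 2 * ip (T^[t] f) (T^[t] f) ≤ ρ ^ 2 * ((ρ ^ t) ^ 2 * ip f f) :=
          mul_le_mul_of_nonneg_left ih.2 (sq_nonneg _)
      _ = _ := by ring

/-- the transition probabilities are within `ρ ^ t` of the uniform distribution -/
theorem mix [DecidableEq Y] {ρ : ℝ} (hρ : 0 ≤ ρ) (hsym : ∀ f g, ip (T f) g = ip f (T g))
    (hpos : ∀ f, 0 ≤ ip f (T f)) (hmean : ∀ f, ∑ y, f y = 0 → ∑ y, T f y = 0)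
    (hone : T (fun _ => 1) = fun _ => 1)
    (hle : ∀ f, ∑ y, f y = 0 → ip f (T f) ≤ ρ * ip f f) (t : ℕ) (a b : Y) :
    |(T^[t] (fun y => if y = b then 1 else 0)) a - 1 / Fintype.card Y| ≤ ρ ^ t := by
  have : Nonempty Y := ⟨a⟩
  have hN : (0 : ℝ) < Fintype.card Y := by exact_mod_cast Fintype.card_pos
  set N : ℝ := (Fintype.card Y : ℝ) with hNdef
  set f : Y → ℝ := fun y => if y = b then 1 else 0 with hf
  set f0 : Y → ℝ := fun y => f y - 1 / N with hf0
  have h1 : ∑ y, f0 y = 0 := by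
    rw [hf0, Finset.sum_sub_distrib]
    simp [hf]
    rw [← hNdef]; field_simp; ring
  have hT : ∀ s, T^[s] f = fun y => T^[s] f0 y + 1 / N := by
    intro s
    induction s with
    | zero => funext y; simp [hf0]
    | succ s ih =>
      rw [Function.iterate_succ_apply', Function.iterate_succ_apply', ih]
      have e : (fun y => T^[s] f0 y + 1 / N) = T^[s] f0 + (1 / N) • (fun _ => (1 : ℝ)) := by
        funext y; simp
      rw [e, map_add, map_smul, hone]
      funext y; simp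
  have h2 := (contract_iter T hρ hsym hpos hmean hle t f0 h1).2
  have h3 : ip f0 f0 ≤ 1 := by
    have e1 : ip f0 f0 = 1 - 1 / N := by
      have : ∀ y, f0 y * f0 y = f y - 2 * (1 / N) * f y + 1 / N * (1 / N) := by
        intro y
        simp only [hf0, hf]
        split_ifs <;> ring
      unfold ip
      simp_rw [this]
      rw [Finset.sum_add_distrib, Finset.sum_sub_distrib, ← Finset.mul_sum]
      simp [hf]
      rw [← hNdef]; field_simp; ring
    rw [e1]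
    have : 0 < 1 / N := by positivity
    linarith
  have h4 : (T^[t] f0 a) ^ 2 ≤ (ρ ^ t) ^ 2 := by
    calc (T^[t] f0 a) ^ 2 = T^[t] f0 a * T^[t] f0 a := by ring
      _ ≤ ip (T^[t] f0) (T^[t] f0) :=
          Finset.single_le_sum (f := fun y => T^[t] f0 y * T^[t] f0 y)
            (fun y _ => mul_self_nonneg _) (Finset.mem_univ a)
      _ ≤ (ρ ^ t) ^ 2 * ip f0 f0 := h2
      _ ≤ (ρ ^ t) ^ 2 * 1 := mul_le_mul_of_nonneg_left h3 (sq_nonneg _)
      _ = (ρ ^ t) ^ 2 := mul_one _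
  rw [hT t]
  have h5 : T^[t] f0 a + 1 / N - 1 / N = T^[t] f0 a := by ring
  simp only [h5]
  exact abs_le_of_sq_le_sq h4 (pow_nonneg hρ t)

end

section Perm
variable {k : ℕ} (τ : Fin k → Equiv.Perm Y)

/-- the lazy walk operator of permutations `τ_i` -/
noncomputable def lazy : (Y → ℝ) →ₗ[ℝ] (Y → ℝ) where
  toFun f y := (f y + (∑ i, (f (τ i y) + f ((τ i)⁻¹ y))) / (2 * k)) / 2
  map_add' f g := by
    funext y
    simp only [Pi.add_apply]
    have : ∑ i, (f (τ i y) + g (τ i y) + (f ((τ i)⁻¹ y) + g ((τ i)⁻¹ y))) =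
        ∑ i, (f (τ i y) + f ((τ i)⁻¹ y)) + ∑ i, (g (τ i y) + g ((τ i)⁻¹ y)) := by
      rw [← Finset.sum_add_distrib]
      exact Finset.sum_congr rfl fun i _ => by ring
    rw [this]
    ring
  map_smul' c f := by
    funext y
    simp only [Pi.smul_apply, smul_eq_mul, RingHom.id_apply]
    have : ∑ i, (c * f (τ i y) + c * f ((τ i)⁻¹ y)) = c * ∑ i, (f (τ i y) + f ((τ i)⁻¹ y)) := by
      rw [Finset.mul_sum]
      exact Finset.sum_congr rfl fun i _ => by ring
    rw [this]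
    ring

omit [Fintype Y] in
lemma lazy_apply (f : Y → ℝ) (y : Y) :
    lazy τ f y = (f y + (∑ i, (f (τ i y) + f ((τ i)⁻¹ y))) / (2 * k)) / 2 := rfl

lemma ip_shift (σ : Equiv.Perm Y) (f g : Y → ℝ) :
    ∑ y, f (σ y) * g y = ∑ y, f y * g (σ⁻¹ y) := by
  rw [← Equiv.sum_comp σ (fun y => f y * g (σ⁻¹ y))]
  simp

lemma ip_lazy (f g : Y → ℝ) : ip f (lazy τ g) =
    (ip f g + (∑ i, (∑ y, f y * g (τ i y) + ∑ y, f y * g ((τ i)⁻¹ y))) / (2 * k)) / 2 := by
  unfold ip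
  simp_rw [lazy_apply, ← Finset.sum_add_distrib]
  rw [Finset.sum_comm, Finset.sum_div, ← Finset.sum_add_distrib, Finset.sum_div]
  refine Finset.sum_congr rfl fun y _ => ?_
  have : ∑ i, (f y * g (τ i y) + f y * g ((τ i)⁻¹ y)) = f y * ∑ i, (g (τ i y) + g ((τ i)⁻¹ y)) := by
    rw [Finset.mul_sum]
    exact Finset.sum_congr rfl fun i _ => by ring
  rw [this]
  ring

lemma lazy_sym (f g : Y → ℝ) : ip (lazy τ f) g = ip f (lazy τ g) := by
  rw [ip_comm, ip_lazy, ip_lazy, ip_comm f g]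
  congr 3
  refine Finset.sum_congr rfl fun i _ => ?_
  have e1 : ∑ y, g y * f (τ i y) = ∑ y, f y * g ((τ i)⁻¹ y) := by
    rw [← ip_shift]
    exact Finset.sum_congr rfl fun y _ => mul_comm _ _
  have e2 : ∑ y, g y * f ((τ i)⁻¹ y) = ∑ y, f y * g (τ i y) := by
    have := ip_shift (τ i)⁻¹ f g
    rw [inv_inv] at this
    rw [← this]
    exact Finset.sum_congr rfl fun y _ => mul_comm _ _
  rw [e1, e2, add_comm]

lemma lazy_one (hk : 1 ≤ k) : lazy τ (fun _ => 1) = fun _ => 1 := by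
  have : (0 : ℝ) < k := by exact_mod_cast hk
  funext y
  rw [lazy_apply]
  simp
  field_simp
  ring

lemma lazy_mean (hk : 1 ≤ k) (f : Y → ℝ) (hf : ∑ y, f y = 0) : ∑ y, lazy τ f y = 0 := by
  have h := lazy_sym τ (fun _ => 1) f
  rw [lazy_one τ hk] at h
  unfold ip at h
  simp only [one_mul] at h
  rw [← h, hf]

lemma lazy_pos (hk : 1 ≤ k) (f : Y → ℝ) : 0 ≤ ip f (lazy τ f) := by
  have hk0 : (0 : ℝ) < k := by exact_mod_cast hk
  rw [ip_lazy]
  have h1 : ∀ σ : Equiv.Perm Y, -(∑ y, f y * f y) ≤ ∑ y, f y * f (σ y) := by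
    intro σ
    have h2 : 0 ≤ ∑ y, (f y + f (σ y)) ^ 2 := Finset.sum_nonneg fun _ _ => sq_nonneg _
    have h3 : ∑ y, (f y + f (σ y)) ^ 2 =
        ∑ y, f y * f y + 2 * ∑ y, f y * f (σ y) + ∑ y, f (σ y) * f (σ y) := by
      rw [Finset.mul_sum, ← Finset.sum_add_distrib, ← Finset.sum_add_distrib]
      exact Finset.sum_congr rfl fun y _ => by ring
    have h4 : ∑ y, f (σ y) * f (σ y) = ∑ y, f y * f y :=
      Equiv.sum_comp σ fun y => f y * f y
    rw [h3, h4] at h2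
    linarith
  have h2 : -(2 * k * ip f f) ≤ ∑ i, (∑ y, f y * f (τ i y) + ∑ y, f y * f ((τ i)⁻¹ y)) := by
    have : -(2 * k * ip f f) = ∑ _i : Fin k, (-(ip f f) + -(ip f f)) := by
      simp; ring
    rw [this]
    exact Finset.sum_le_sum fun i _ => add_le_add (h1 _) (h1 _)
  have h3 : -(ip f f) ≤
      (∑ i, (∑ y, f y * f (τ i y) + ∑ y, f y * f ((τ i)⁻¹ y))) / (2 * k) := by
    rw [le_div_iff₀ (by positivity)]
    linarith
  linarith

/-- the gap of the walk gives the mixing of the lazy walk -/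
theorem lazy_mix [DecidableEq Y] (hk : 1 ≤ k) {ε : ℝ} (hε : ε ≤ 1)
    (hgap : ∀ f : Y → ℝ, ∑ y, f y = 0 →
      ∑ y, f y * ((∑ i, (f (τ i y) + f ((τ i)⁻¹ y))) / (2 * k)) ≤ (1 - ε) * ∑ y, f y ^ 2)
    (t : ℕ) (a b : Y) :
    |((lazy τ)^[t] (fun y => if y = b then 1 else 0)) a - 1 / Fintype.card Y| ≤
      (1 - ε / 2) ^ t := by
  refine mix (lazy τ) (by linarith) (lazy_sym τ) (lazy_pos τ hk) (lazy_mean τ hk)
    (lazy_one τ hk) (fun f hf => ?_) t a b
  have h := hgap f hf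
  have e1 : ip f (lazy τ f) =
      (ip f f + ∑ y, f y * ((∑ i, (f (τ i y) + f ((τ i)⁻¹ y))) / (2 * k))) / 2 := by
    unfold ip
    rw [← Finset.sum_add_distrib, Finset.sum_div]
    exact Finset.sum_congr rfl fun y _ => by rw [lazy_apply]; ring
  have e2 : ∑ y, f y ^ 2 = ip f f := by
    unfold ip
    exact Finset.sum_congr rfl fun y _ => by ring
  rw [e1]
  rw [e2] at h
  linarith

end Perm

end Pool.Agent.X233.Mix
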